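import Pool.Agent.Helper5.KM.Basic

/-! APPROX: finite past. -/

open MeasureTheory Filter Topology

namespace Pool.Agent.Helper49.KM

open Pool.Agent.Helper5.KM

variable {b : ℕ}

/-- the filtration of the finite pasts -/
def fil (b : ℕ) : Filtration ℕ (MeasurableSpace.pi : MeasurableSpace (Sq b)) where
  seq n := MeasurableSpace.comap (blk (-(n : ℤ)) n) MeasurableSpace.pi
  mono' := by
    refine monotone_nat_of_le_succ fun n => ?_
    rw [← measurable_iff_comap_le]
    have h1 : Measurable[MeasurableSpace.comap (blk (-((n + 1 : ℕ) : ℤ)) (n + 1))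
        MeasurableSpace.pi] (blk (-((n + 1 : ℕ) : ℤ)) (n + 1) : Sq b → Fin (n + 1) → Fin b) :=
      comap_measurable _
    have h2 : (blk (-(n : ℤ)) n : Sq b → Fin n → Fin b) =
        (fun (w : Fin (n + 1) → Fin b) (i : Fin n) => w i.succ) ∘
          blk (-((n + 1 : ℕ) : ℤ)) (n + 1) := by
      funext y i
      simp only [Function.comp, blk, Fin.val_succ]
      congr 1
      push_cast
      ring
    rw [h2]
    exact (measurable_pi_lambda _ fun i => measurable_pi_apply _).comp h1
  le' n := by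
    rw [← measurable_iff_comap_le]
    exact measurable_blk _ _

theorem iSup_fil : (⨆ n, fil b n) = past b 0 := by
  apply le_antisymm
  · refine iSup_le fun n => ?_
    change MeasurableSpace.comap (blk (-(n : ℤ)) n) MeasurableSpace.pi ≤ past b 0
    rw [← measurable_iff_comap_le]
    exact measurable_blk_past _ _ _ (by simp)
  · have h1 : Measurable[(⨆ n, fil b n), past b 0] (id : Sq b → Sq b) := by
      refine @measurable_of_coord b (Sq b) (⨆ n, fil b n) 0 id fun i hi => ?_
      have h2 : Measurable[fil b i.natAbs] (blk (-(i.natAbs : ℤ)) i.natAbs :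
          Sq b → Fin i.natAbs → Fin b) := comap_measurable _
      have h3 : Measurable[fil b i.natAbs] (fun y : Sq b => y i) := by
        have h4 := (measurable_pi_apply (⟨0, by omega⟩ : Fin i.natAbs)).comp h2
        have h5 : ((fun w : Fin i.natAbs → Fin b => w ⟨0, by omega⟩) ∘
            (blk (-(i.natAbs : ℤ)) i.natAbs : Sq b → Fin i.natAbs → Fin b)) =
            fun y : Sq b => y i := by
          funext y
          simp only [Function.comp, blk]
          congr 1
          push_cast
          rw [abs_of_neg hi]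
          ring
        rw [h5] at h4
        exact h4
      intro s hs
      exact (le_iSup (fil b) i.natAbs) _ (h3 hs)
    intro s hs
    exact h1 hs

theorem real_approx {μ : Measure (Sq b)} [IsProbabilityMeasure μ] (f : Sq b → ℝ)
    (hf : StronglyMeasurable[past b 0] f) (h1 : ∀ y, |f y| ≤ 1) :
    ∃ φ : (n : ℕ) → (Fin n → Fin b) → ℝ,
      Tendsto (fun n : ℕ => ∫ y, |f y - φ n (blk (-(n : ℤ)) n y)| ∂μ) atTop (𝓝 0) := by
  have hm : past b 0 ≤ MeasurableSpace.pi := past_le 0
  have hfi : Integrable f μ := by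
    refine Integrable.of_bound (hf.mono hm).aestronglyMeasurable 1
      (Eventually.of_forall fun y => h1 y)
  have hlim := hfi.tendsto_eLpNorm_condExp (ℱ := fil b) (by rw [iSup_fil]; exact hf)
  have hex : ∀ n : ℕ, ∃ φ : (Fin n → Fin b) → ℝ, μ[f | fil b n] = φ ∘ blk (-(n : ℤ)) n := by
    intro n
    have hs : StronglyMeasurable[fil b n] (μ[f | fil b n]) := stronglyMeasurable_condExp
    obtain ⟨φ, -, hφ⟩ := StronglyMeasurable.exists_eq_measurable_comp
      (f := (blk (-(n : ℤ)) n : Sq b → Fin n → Fin b)) hs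
    exact ⟨φ, hφ⟩
  choose φ hφ using hex
  refine ⟨φ, ?_⟩
  have h2 : ∀ n : ℕ, ∫ y, |f y - φ n (blk (-(n : ℤ)) n y)| ∂μ =
      (eLpNorm (μ[f | fil b n] - f) 1 μ).toReal := by
    intro n
    have hi : Integrable (μ[f | fil b n] - f) μ := integrable_condExp.sub hfi
    rw [eLpNorm_one_eq_lintegral_enorm, ← integral_norm_eq_lintegral_enorm
      hi.aestronglyMeasurable]
    refine integral_congr_ae (Eventually.of_forall fun y => ?_)
    simp only [Pi.sub_apply, Real.norm_eq_abs]
    rw [abs_sub_comm, hφ n]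
    rfl
  simp_rw [h2]
  have h3 := (ENNReal.tendsto_toReal (ENNReal.zero_ne_top)).comp hlim
  rw [ENNReal.toReal_zero] at h3
  exact h3

theorem norm_sub_div (U G : ℂ) (hU : ‖U‖ = 1) :
    ‖U - (if G = 0 then 1 else G / (‖G‖ : ℂ))‖ ≤ 2 * ‖U - G‖ := by
  split_ifs with h
  · rw [h, sub_zero, hU]
    calc ‖U - 1‖ ≤ ‖U‖ + ‖(1 : ℂ)‖ := norm_sub_le _ _
      _ = 2 * 1 := by rw [hU, norm_one]; norm_num
  · have hG : 0 < ‖G‖ := norm_pos_iff.2 h
    have hGc : (‖G‖ : ℂ) ≠ 0 := by exact_mod_cast hG.ne'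
    have h1 : ‖G - G / (‖G‖ : ℂ)‖ = |‖G‖ - 1| := by
      have : G - G / (‖G‖ : ℂ) = (((‖G‖ - 1) / ‖G‖ : ℝ) : ℂ) * G := by
        push_cast
        field_simp
      rw [this, norm_mul, Complex.norm_real, Real.norm_eq_abs, abs_div, abs_of_pos hG]
      field_simp
    have h2 : |‖G‖ - 1| ≤ ‖U - G‖ := by
      rw [← hU, abs_sub_comm]
      exact abs_norm_sub_norm_le U G
    calc ‖U - G / (‖G‖ : ℂ)‖ = ‖(U - G) + (G - G / (‖G‖ : ℂ))‖ := by ring_nf
      _ ≤ ‖U - G‖ + ‖G - G / (‖G‖ : ℂ)‖ := norm_add_le _ _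
      _ ≤ 2 * ‖U - G‖ := by rw [h1]; linarith

theorem approx {μ : Measure (Sq b)} [IsProbabilityMeasure μ] (U : Sq b → ℂ)
    (hU : StronglyMeasurable[past b 0] U) (h1 : ∀ y, ‖U y‖ = 1) (ε : ℝ) (hε : 0 < ε) :
    ∃ n0 : ℕ, ∀ n ≥ n0, ∃ g : (Fin n → Fin b) → ℂ, (∀ w, ‖g w‖ = 1) ∧
      ∫ y, ‖U y - g (blk (-(n : ℤ)) n y)‖ ∂μ ≤ ε := by
  classical
  have hm : past b 0 ≤ MeasurableSpace.pi := past_le 0
  have hre : StronglyMeasurable[past b 0] (fun y => (U y).re) :=
    Complex.continuous_re.comp_stronglyMeasurable hU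
  have him : StronglyMeasurable[past b 0] (fun y => (U y).im) :=
    Complex.continuous_im.comp_stronglyMeasurable hU
  obtain ⟨φ, hφ⟩ := real_approx (μ := μ) _ hre fun y =>
    (Complex.abs_re_le_norm _).trans (h1 y).le
  obtain ⟨ψ, hψ⟩ := real_approx (μ := μ) _ him fun y =>
    (Complex.abs_im_le_norm _).trans (h1 y).le
  have hsum := (hφ.add hψ).const_mul 2
  simp only [add_zero, mul_zero] at hsum
  obtain ⟨n0, hn0⟩ := eventually_atTop.1 (hsum.eventually_le_const hε)
  refine ⟨n0, fun n hn => ?_⟩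
  set G : (Fin n → Fin b) → ℂ := fun w => ⟨φ n w, ψ n w⟩ with hG
  refine ⟨fun w => if G w = 0 then 1 else G w / (‖G w‖ : ℂ), fun w => ?_, ?_⟩
  · change ‖(if G w = 0 then (1 : ℂ) else G w / (‖G w‖ : ℂ))‖ = 1
    split_ifs with h
    · exact norm_one
    · rw [norm_div, Complex.norm_real, norm_norm, div_self (norm_ne_zero_iff.2 h)]
  · refine le_trans ?_ (hn0 n hn)
    have hUae : AEStronglyMeasurable U μ := (hU.mono hm).aestronglyMeasurable
    have hblk : ∀ F : (Fin n → Fin b) → ℝ, Measurable (fun y : Sq b => F (blk (-(n : ℤ)) n y)) :=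
      fun F => (measurable_of_finite F).comp (measurable_blk _ _)
    have hfin : ∀ F : (Fin n → Fin b) → ℝ, Integrable (fun y : Sq b => F (blk (-(n : ℤ)) n y)) μ :=
      fun F => by
        refine Integrable.of_bound (hblk F).aestronglyMeasurable (∑ w, |F w|)
          (Eventually.of_forall fun y => ?_)
        rw [Real.norm_eq_abs]
        exact Finset.single_le_sum (f := fun w => |F w|) (fun w _ => abs_nonneg _)
          (Finset.mem_univ _)
    have hrei : Integrable (fun y => (U y).re) μ :=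
      Integrable.of_bound (hre.mono hm).aestronglyMeasurable 1
        (Eventually.of_forall fun y => (Complex.abs_re_le_norm _).trans (h1 y).le)
    have himi : Integrable (fun y => (U y).im) μ :=
      Integrable.of_bound (him.mono hm).aestronglyMeasurable 1
        (Eventually.of_forall fun y => (Complex.abs_im_le_norm _).trans (h1 y).le)
    have i1 : Integrable (fun y => |(U y).re - φ n (blk (-(n : ℤ)) n y)|) μ :=
      (hrei.sub (hfin (φ n))).abs
    have i2 : Integrable (fun y => |(U y).im - ψ n (blk (-(n : ℤ)) n y)|) μ :=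
      (himi.sub (hfin (ψ n))).abs
    rw [← integral_add i1 i2, ← integral_const_mul]
    refine integral_mono_of_nonneg (Eventually.of_forall fun y => norm_nonneg _)
      ((i1.add i2).const_mul 2) (Eventually.of_forall fun y => ?_)
    refine (norm_sub_div (U y) (G (blk (-(n : ℤ)) n y)) (h1 y)).trans ?_
    refine mul_le_mul_of_nonneg_left ?_ (by norm_num)
    exact Complex.norm_le_abs_re_add_abs_im _

end Pool.Agent.Helper49.KM
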