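import Pool.Agent.Helper5.KM.Basic

/-! DIO: decoding. -/

open MeasureTheory Filter Topology

namespace Pool.Agent.Helper49.KM

open Pool.Agent.Helper5.KM

variable {b : ℕ}

theorem num_eq {k : ℕ} (z : Fin k → Fin b) :
    num z = ((finFunctionFinEquiv (m := b) (n := k) (z ∘ Fin.rev)) : ℕ) := by
  rw [finFunctionFinEquiv_apply]
  unfold num
  rw [← Equiv.sum_comp Fin.revPerm]
  refine Finset.sum_congr rfl fun i _ => ?_
  simp only [Function.comp, Fin.revPerm_apply, Fin.val_rev]
  congr 2
  have := i.2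
  omega

theorem num_lt {k : ℕ} (z : Fin k → Fin b) : num z < b ^ k := by
  rw [num_eq]; exact Fin.is_lt _

theorem num_inj {k : ℕ} {z z' : Fin k → Fin b} (h : num z = num z') : z = z' := by
  rw [num_eq, num_eq] at h
  have h1 := (finFunctionFinEquiv (m := b) (n := k)).injective (Fin.ext h)
  funext i
  have h2 := congrFun h1 (Fin.rev i)
  simpa using h2

/-- `‖e t - 1‖ ≥ 4 dist(t, ℤ)` -/
theorem norm_e_sub_one_ge (t : ℝ) : 4 * |t - round t| ≤ ‖e t - 1‖ := by
  have h1 : e t = e (t - round t) := by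
    have := e_int (t - round t) (round t)
    rw [← this]; congr 1; ring
  rw [h1]
  set s := t - round t with hs
  have hs2 : |s| ≤ 1 / 2 := abs_sub_round t
  have h2 : ‖e s - 1‖ = ‖2 * Real.sin (Real.pi * s)‖ := by
    have := Complex.norm_exp_I_mul_ofReal_sub_one (2 * Real.pi * s)
    unfold e
    rw [mul_comm Complex.I] at this
    rw [this]
    congr 2
    ring_nf
  rw [h2, Real.norm_eq_abs, abs_mul, abs_of_pos (by norm_num : (0 : ℝ) < 2)]
  have h3 : |Real.pi * s| ≤ Real.pi / 2 := by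
    rw [abs_mul, abs_of_pos Real.pi_pos]
    have := Real.pi_pos
    nlinarith
  have h4 := Real.mul_abs_le_abs_sin h3
  rw [abs_mul, abs_of_pos Real.pi_pos] at h4
  have h5 : 2 / Real.pi * (Real.pi * |s|) = 2 * |s| := by
    have := Real.pi_pos.ne'
    field_simp
  rw [h5] at h4
  linarith

theorem decode (hb : 2 ≤ b) (X c : ℝ) (κ : ℕ) (hc : 0 < c)
    (hX : ∀ D : ℕ, 0 < D → ∀ p : ℤ, c / (D : ℝ) ^ κ ≤ |X * D - p|) (l L K' K : ℕ)
    (hLK : L < K) (hK : (b : ℝ) ^ (κ * (l + L + K')) < c * (b : ℝ) ^ (K - L - 1))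
    (z z' : Fin K' → Fin b)
    (hz : ∀ k, L ≤ k → k < K →
      ‖e ((b : ℝ) ^ (l + k) * X * num z) - e ((b : ℝ) ^ (l + k) * X * num z')‖ ≤ 1 / b) :
    z = z' := by
  by_contra hne
  have hbR : (2 : ℝ) ≤ b := by exact_mod_cast hb
  have hb0 : (0 : ℝ) < b := by linarith
  have hnum : num z ≠ num z' := fun h => hne (num_inj h)
  set Δ : ℝ := (num z : ℝ) - num z' with hΔ
  set t : ℕ → ℝ := fun k => (b : ℝ) ^ (l + k) * X * Δ with ht
  have hd : ∀ k, L ≤ k → k < K → |t k - round (t k)| ≤ 1 / (4 * b) := by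
    intro k hk1 hk2
    have h1 := hz k hk1 hk2
    have h2 : e ((b : ℝ) ^ (l + k) * X * num z) - e ((b : ℝ) ^ (l + k) * X * num z') =
        e ((b : ℝ) ^ (l + k) * X * num z') * (e (t k) - 1) := by
      rw [mul_sub, ← e_add, mul_one]; congr 2; simp only [ht, hΔ]; ring
    rw [h2, norm_mul, norm_e, one_mul] at h1
    have h3 := norm_e_sub_one_ge (t k)
    rw [show (1 : ℝ) / (4 * b) = 1 / b / 4 by field_simp]
    linarith
  have hstep : ∀ k, L ≤ k → k + 1 < K →
      t (k + 1) - round (t (k + 1)) = b * (t k - round (t k)) := by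
    intro k hk1 hk2
    have h1 := hd k hk1 (by omega)
    have h2 := hd (k + 1) (by omega) hk2
    have ht1 : t (k + 1) = b * t k := by
      simp only [ht]
      rw [show l + (k + 1) = (l + k) + 1 by ring, pow_succ]
      ring
    have h3 : |(b : ℝ) * (t k - round (t k))| ≤ 1 / 4 := by
      rw [abs_mul, abs_of_pos hb0]
      calc (b : ℝ) * |t k - round (t k)| ≤ b * (1 / (4 * b)) :=
            mul_le_mul_of_nonneg_left h1 hb0.le
        _ = 1 / 4 := by field_simp
    have h4 : (1 : ℝ) / (4 * b) ≤ 1 / 8 := by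
      rw [div_le_div_iff₀ (by positivity) (by norm_num)]; linarith
    have h5 : (round (t (k + 1)) : ℤ) = b * round (t k) := by
      have h6 : |((round (t (k + 1)) - b * round (t k) : ℤ) : ℝ)| < 1 := by
        have h7 : ((round (t (k + 1)) - b * round (t k) : ℤ) : ℝ) =
            b * (t k - round (t k)) - (t (k + 1) - round (t (k + 1))) := by
          push_cast
          rw [ht1]; ring
        rw [h7]
        calc |(b : ℝ) * (t k - round (t k)) - (t (k + 1) - round (t (k + 1)))|
            ≤ |(b : ℝ) * (t k - round (t k))| + |t (k + 1) - round (t (k + 1))| := abs_sub _ _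
          _ < 1 := by linarith
      have h8 : |round (t (k + 1)) - b * round (t k)| < 1 := by exact_mod_cast h6
      have := Int.abs_lt_one_iff.1 h8
      omega
    rw [ht1] at h5 ⊢
    rw [h5]; push_cast; ring
  have hpow : ∀ j, L + j < K →
      t (L + j) - round (t (L + j)) = (b : ℝ) ^ j * (t L - round (t L)) := by
    intro j
    induction j with
    | zero => intro _; simp
    | succ j ih =>
      intro hj
      rw [show L + (j + 1) = L + j + 1 by ring, hstep (L + j) (by omega) (by omega),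
        ih (by omega), pow_succ]
      ring
  have hlast := hd (L + (K - L - 1)) (by omega) (by omega)
  rw [hpow (K - L - 1) (by omega), abs_mul, abs_of_pos (by positivity)] at hlast
  have hle1 : (b : ℝ) ^ (K - L - 1) * |t L - round (t L)| ≤ 1 := by
    refine hlast.trans ?_
    rw [div_le_one (by positivity)]
    linarith
  -- the denominator
  set D : ℕ := b ^ (l + L) * ((num z : ℤ) - num z').natAbs with hD
  have hDpos : 0 < D := by
    apply Nat.mul_pos (pow_pos (by omega) _)
    rw [Int.natAbs_pos]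
    intro h
    apply hnum
    omega
  have hDR : (D : ℝ) = (b : ℝ) ^ (l + L) * |Δ| := by
    rw [hD]
    push_cast
    rw [Nat.cast_natAbs]
    push_cast
    rfl
  have hDle : (D : ℝ) ≤ (b : ℝ) ^ (l + L + K') := by
    rw [hDR, pow_add _ (l + L) K']
    refine mul_le_mul_of_nonneg_left ?_ (by positivity)
    rw [abs_le]
    have h1 : (num z : ℝ) ≤ (b : ℝ) ^ K' := by exact_mod_cast (num_lt z).le
    have h2 : (num z' : ℝ) ≤ (b : ℝ) ^ K' := by exact_mod_cast (num_lt z').le
    have h3 : (0 : ℝ) ≤ num z := Nat.cast_nonneg _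
    have h4 : (0 : ℝ) ≤ num z' := Nat.cast_nonneg _
    constructor <;> simp only [hΔ] <;> linarith
  have hfin : c / (D : ℝ) ^ κ ≤ |t L - round (t L)| := by
    rcases le_total 0 Δ with h | h
    · have h1 := hX D hDpos (round (t L))
      have h2 : X * (D : ℝ) = t L := by
        rw [hDR, abs_of_nonneg h]; simp only [ht]; ring
      rwa [h2] at h1
    · have h1 := hX D hDpos (-round (t L))
      have h2 : X * (D : ℝ) = -t L := by
        rw [hDR, abs_of_nonpos h]; simp only [ht]; ring
      rw [h2] at h1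
      have h3 : -t L - ((-round (t L) : ℤ) : ℝ) = -(t L - round (t L)) := by push_cast; ring
      rwa [h3, abs_neg] at h1
  have hDk : (D : ℝ) ^ κ ≤ (b : ℝ) ^ (κ * (l + L + K')) := by
    rw [mul_comm κ, pow_mul]
    exact pow_le_pow_left₀ (Nat.cast_nonneg _) hDle κ
  have hDpk : (0 : ℝ) < (D : ℝ) ^ κ := by
    have : (0 : ℝ) < D := by exact_mod_cast hDpos
    positivity
  rw [div_le_iff₀ hDpk] at hfin
  have hbp : (0 : ℝ) < (b : ℝ) ^ (K - L - 1) := by positivity
  have : c * (b : ℝ) ^ (K - L - 1) ≤ (D : ℝ) ^ κ := by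
    calc c * (b : ℝ) ^ (K - L - 1)
        ≤ (|t L - round (t L)| * (D : ℝ) ^ κ) * (b : ℝ) ^ (K - L - 1) :=
          mul_le_mul_of_nonneg_right hfin hbp.le
      _ = ((b : ℝ) ^ (K - L - 1) * |t L - round (t L)|) * (D : ℝ) ^ κ := by ring
      _ ≤ 1 * (D : ℝ) ^ κ := mul_le_mul_of_nonneg_right hle1 hDpk.le
      _ = (D : ℝ) ^ κ := one_mul _
  linarith

end Pool.Agent.Helper49.KM
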