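import Pool.Agent.Helper5.KM.Basic

/-! ENT1: subadditivity of the entropy. -/

open MeasureTheory Filter Topology

namespace Pool.Agent.Helper49.KM

open Pool.Agent.Helper5.KM

variable {b : ℕ}

/-- measurable with finitely many values -/
def Mb {α : Type} (X : Sq b → α) : Prop := ∀ a, MeasurableSet (X ⁻¹' {a})

theorem real_split {μ : Measure (Sq b)} [IsProbabilityMeasure μ] {α β : Type} [Fintype β]
    {X : Sq b → α} {Y : Sq b → β} (hX : Mb X) (hY : Mb Y) (a : α) :
    μ.real (X ⁻¹' {a}) = ∑ c, μ.real (X ⁻¹' {a} ∩ Y ⁻¹' {c}) := by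
  have h1 : (X ⁻¹' {a} : Set (Sq b)) = ⋃ c : β, X ⁻¹' {a} ∩ Y ⁻¹' {c} := by
    ext y; simp
  conv_lhs => rw [h1]
  rw [measureReal_iUnion_fintype]
  · intro i j hij
    rw [Function.onFun, Set.disjoint_left]
    intro y hy1 hy2
    exact hij ((Set.mem_singleton_iff.1 hy1.2).symm.trans (Set.mem_singleton_iff.1 hy2.2))
  · intro i
    exact (hX a).inter (hY i)

theorem negMulLog_sum_le {ι : Type} (s : Finset ι) (a : ι → ℝ) (ha : ∀ i, 0 ≤ a i) :
    Real.negMulLog (∑ i ∈ s, a i) ≤ ∑ i ∈ s, Real.negMulLog (a i) := by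
  classical
  rcases (Finset.sum_nonneg fun i (_ : i ∈ s) => ha i).eq_or_lt with h | h
  · have hz : ∀ i ∈ s, a i = 0 := (Finset.sum_eq_zero_iff_of_nonneg fun j _ => ha j).1 h.symm
    rw [← h, Finset.sum_eq_zero fun i hi => by rw [hz i hi]; simp]
    simp
  · have : Real.negMulLog (∑ i ∈ s, a i) = ∑ i ∈ s, a i * (-Real.log (∑ i ∈ s, a i)) := by
      rw [← Finset.sum_mul, Real.negMulLog]; ring
    rw [this]
    refine Finset.sum_le_sum fun i hi => ?_
    rw [Real.negMulLog]
    rcases (ha i).eq_or_lt with h0 | h0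
    · rw [← h0]; simp
    · have := Real.log_le_log h0 (Finset.single_le_sum (fun j _ => ha j) hi)
      nlinarith

/-- the entropy of a function of `X` -/
theorem ent_le_of_det {μ : Measure (Sq b)} [IsProbabilityMeasure μ] {α β : Type} [Fintype α]
    [Fintype β] {X : Sq b → α} {Y : Sq b → β} (hX : Mb X) (hY : Mb Y)
    (h : ∀ y y', X y = X y' → Y y = Y y') : ent μ Y ≤ ent μ X := by
  classical
  unfold ent
  have h1 : ∀ a, Real.negMulLog (μ.real (X ⁻¹' {a})) =
      ∑ c, Real.negMulLog (μ.real (X ⁻¹' {a} ∩ Y ⁻¹' {c})) := by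
    intro a
    by_cases hne : ∃ y, X y = a
    · obtain ⟨y, rfl⟩ := hne
      have h2 : ∀ c, c ≠ Y y → (X ⁻¹' {X y} ∩ Y ⁻¹' {c} : Set (Sq b)) = ∅ := by
        intro c hc
        ext z
        simp only [Set.mem_inter_iff, Set.mem_preimage, Set.mem_singleton_iff,
          Set.mem_empty_iff_false, iff_false, not_and]
        intro hz hz'
        exact hc (hz'.symm.trans (h z y hz))
      rw [Finset.sum_eq_single (Y y)]
      · congr 2
        ext z
        simp only [Set.mem_inter_iff, Set.mem_preimage, Set.mem_singleton_iff]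
        exact ⟨fun hz => ⟨hz, h z y hz⟩, fun hz => hz.1⟩
      · intro c _ hc
        rw [h2 c hc]; simp
      · intro hcon; exact absurd (Finset.mem_univ _) hcon
    · have h2 : (X ⁻¹' {a} : Set (Sq b)) = ∅ := by
        ext z
        simp only [Set.mem_preimage, Set.mem_singleton_iff, Set.mem_empty_iff_false, iff_false]
        exact fun hz => hne ⟨z, hz⟩
      rw [h2]; simp
  rw [Finset.sum_congr rfl fun a _ => h1 a, Finset.sum_comm]
  refine Finset.sum_le_sum fun c _ => ?_
  rw [real_split hY hX c]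
  refine (negMulLog_sum_le _ _ fun a => measureReal_nonneg).trans (le_of_eq ?_)
  refine Finset.sum_congr rfl fun a _ => ?_
  rw [Set.inter_comm]

theorem mb_prod {α β : Type} {X : Sq b → α} {Y : Sq b → β} (hX : Mb X) (hY : Mb Y) :
    Mb (fun y => (X y, Y y)) := by
  rintro ⟨a, c⟩
  have : ((fun y => (X y, Y y)) ⁻¹' {(a, c)} : Set (Sq b)) = X ⁻¹' {a} ∩ Y ⁻¹' {c} := by
    ext y; simp
  rw [this]
  exact (hX a).inter (hY c)

/-- subadditivity -/
theorem ent_prod_le {μ : Measure (Sq b)} [IsProbabilityMeasure μ] {α β : Type} [Fintype α]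
    [Fintype β] {X : Sq b → α} {Y : Sq b → β} (hX : Mb X) (hY : Mb Y) :
    ent μ (fun y => (X y, Y y)) ≤ ent μ X + ent μ Y := by
  classical
  unfold ent
  set P : α → β → ℝ := fun a c => μ.real (X ⁻¹' {a} ∩ Y ⁻¹' {c}) with hP
  have hPX : ∀ a, μ.real (X ⁻¹' {a}) = ∑ c, P a c := fun a => real_split hX hY a
  have hPY : ∀ c, μ.real (Y ⁻¹' {c}) = ∑ a, P a c := by
    intro c
    rw [real_split hY hX c]
    refine Finset.sum_congr rfl fun a _ => ?_
    rw [Set.inter_comm]
  have htot : ∑ a, ∑ c, P a c = 1 := by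
    have h1 : (Set.univ : Set (Sq b)) = ⋃ a : α, X ⁻¹' {a} := by ext y; simp
    have h2 : μ.real (Set.univ : Set (Sq b)) = ∑ a, μ.real (X ⁻¹' {a}) := by
      conv_lhs => rw [h1]
      rw [measureReal_iUnion_fintype]
      · intro i j hij
        rw [Function.onFun, Set.disjoint_left]
        intro y hy1 hy2
        exact hij ((Set.mem_singleton_iff.1 hy1).symm.trans (Set.mem_singleton_iff.1 hy2))
      · exact hX
    rw [probReal_univ] at h2
    rw [h2]
    exact Finset.sum_congr rfl fun a _ => (hPX a).symm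
  set A : α → ℝ := fun a => ∑ c, P a c with hA
  set C : β → ℝ := fun c => ∑ a, P a c with hC
  have hP0 : ∀ a c, 0 ≤ P a c := fun a c => measureReal_nonneg
  have hPA : ∀ a c, P a c ≤ A a := fun a c =>
    Finset.single_le_sum (f := fun c => P a c) (fun j _ => hP0 a j) (Finset.mem_univ c)
  have hPC : ∀ a c, P a c ≤ C c := fun a c =>
    Finset.single_le_sum (f := fun a => P a c) (fun j _ => hP0 j c) (Finset.mem_univ a)
  have hlhs : ∑ x : α × β, Real.negMulLog (μ.real ((fun y => (X y, Y y)) ⁻¹' {x})) =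
      ∑ a, ∑ c, Real.negMulLog (P a c) := by
    rw [Fintype.sum_prod_type]
    refine Finset.sum_congr rfl fun a _ => Finset.sum_congr rfl fun c _ => ?_
    congr 2
    ext y; simp
  have hrX : ∑ a, Real.negMulLog (μ.real (X ⁻¹' {a})) = ∑ a, ∑ c, P a c * (-Real.log (A a)) := by
    refine Finset.sum_congr rfl fun a _ => ?_
    rw [hPX a, ← Finset.sum_mul, Real.negMulLog]
    ring
  have hrY : ∑ c, Real.negMulLog (μ.real (Y ⁻¹' {c})) = ∑ a, ∑ c, P a c * (-Real.log (C c)) := by
    rw [Finset.sum_comm]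
    refine Finset.sum_congr rfl fun c _ => ?_
    rw [hPY c, ← Finset.sum_mul, Real.negMulLog]
    ring
  rw [hlhs, hrX, hrY]
  have hterm : ∀ a c, Real.negMulLog (P a c) - P a c * (-Real.log (A a)) -
      P a c * (-Real.log (C c)) ≤ A a * C c - P a c := by
    intro a c
    rcases (hP0 a c).eq_or_lt with h0 | h0
    · rw [← h0]
      have h1 : 0 ≤ A a := (hP0 a c).trans (hPA a c)
      have h2 : 0 ≤ C c := (hP0 a c).trans (hPC a c)
      simp only [Real.negMulLog_zero, zero_mul, sub_zero]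
      exact mul_nonneg h1 h2
    · have hA0 : 0 < A a := h0.trans_le (hPA a c)
      have hC0 : 0 < C c := h0.trans_le (hPC a c)
      have h1 := Real.log_le_sub_one_of_pos (div_pos (mul_pos hA0 hC0) h0)
      rw [Real.log_div (mul_pos hA0 hC0).ne' h0.ne', Real.log_mul hA0.ne' hC0.ne'] at h1
      have h2 := mul_le_mul_of_nonneg_left h1 h0.le
      have h3 : P a c * (A a * C c / P a c - 1) = A a * C c - P a c := by
        field_simp
      rw [h3] at h2
      rw [Real.negMulLog]
      linarith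
  have hsum := Finset.sum_le_sum fun a (_ : a ∈ (Finset.univ : Finset α)) =>
    Finset.sum_le_sum fun c (_ : c ∈ (Finset.univ : Finset β)) => hterm a c
  have hAC : ∑ a, ∑ c, (A a * C c - P a c) = 0 := by
    simp only [Finset.sum_sub_distrib]
    have h1 : ∑ a, ∑ c, A a * C c = (∑ a, A a) * ∑ c, C c := by
      rw [Finset.sum_mul_sum]
    have h2 : ∑ c, C c = 1 := by
      simp only [hC]; rw [Finset.sum_comm]; exact htot
    rw [h1, h2, htot]
    ring
  rw [hAC] at hsum
  simp only [Finset.sum_sub_distrib] at hsum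
  linarith

theorem ent_pi_le {μ : Measure (Sq b)} [IsProbabilityMeasure μ] (M : ℕ) :
    ∀ (m : ℕ) (V : Fin m → Sq b → Fin (M + 1)), (∀ k, Mb (V k)) →
      ent μ (fun y k => V k y) ≤ ∑ k, ent μ (V k) := by
  have hmb : ∀ (m : ℕ) (V : Fin m → Sq b → Fin (M + 1)), (∀ k, Mb (V k)) →
      Mb (fun y k => V k y) := by
    intro m V hV a
    have : ((fun y k => V k y) ⁻¹' {a} : Set (Sq b)) = ⋂ k, V k ⁻¹' {a k} := by
      ext y
      simp only [Set.mem_preimage, Set.mem_singleton_iff, Set.mem_iInter, funext_iff]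
    rw [this]
    exact MeasurableSet.iInter fun k => hV k _
  intro m
  induction m with
  | zero =>
    intro V hV
    rw [Finset.univ_eq_empty, Finset.sum_empty]
    have h1 : ent μ (fun (y : Sq b) (k : Fin 0) => V k y) ≤ ent μ (fun _ : Sq b => ()) :=
      ent_le_of_det (fun _ => by simp) (hmb 0 V hV) (fun y y' _ => Subsingleton.elim _ _)
    refine h1.trans (le_of_eq ?_)
    unfold ent
    simp
  | succ m ih =>
    intro V hV
    rw [Fin.sum_univ_castSucc]
    have h1 : ent μ (fun (y : Sq b) (k : Fin (m + 1)) => V k y) ≤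
        ent μ (fun y => ((fun k : Fin m => V (Fin.castSucc k) y), V (Fin.last m) y)) := by
      refine ent_le_of_det (mb_prod (hmb m _ fun k => hV _) (hV _)) (hmb _ _ hV) ?_
      intro y y' h
      rw [Prod.mk.injEq] at h
      funext k
      refine Fin.lastCases ?_ (fun k => ?_) k
      · exact h.2
      · exact congrFun h.1 k
    exact h1.trans ((ent_prod_le (hmb m _ fun k => hV _) (hV _)).trans
      (add_le_add (ih (fun k => V (Fin.castSucc k)) fun k => hV _) le_rfl))

theorem mb_blk (s : ℤ) (n : ℕ) : Mb (blk s n : Sq b → Fin n → Fin b) := fun a =>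
  measurable_blk s n (measurableSet_singleton a)

theorem ent_blk {μ : Measure (Sq b)} (h : MeasurePreserving (sh 1) μ μ) (s : ℤ) (n : ℕ) :
    ent μ (blk s n) = ent μ (blk 0 n) := by
  unfold ent
  refine Finset.sum_congr rfl fun a _ => ?_
  congr 1
  have h1 : (blk s n ⁻¹' {a} : Set (Sq b)) = sh s ⁻¹' (blk 0 n ⁻¹' {a}) := by
    ext y
    simp only [Set.mem_preimage, Set.mem_singleton_iff]
    rw [blk_sh, zero_add]
  rw [h1, measureReal_def, measureReal_def, (mp_sh h s).measure_preimage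
    (mb_blk 0 n a).nullMeasurableSet]

theorem ent_det {μ : Measure (Sq b)} [IsProbabilityMeasure μ] (h : MeasurePreserving (sh 1) μ μ)
    (n K' K m M : ℕ) (V : Fin m → Sq b → Fin (M + 1)) (hV : ∀ k, Measurable (V k))
    (hdet : ∀ y y', blk (-(n : ℤ)) n y = blk (-(n : ℤ)) n y' → blk K' K y = blk K' K y' →
      (∀ k, V k y = V k y') → blk 0 K' y = blk 0 K' y') :
    ent μ (blk 0 (n + K' + K)) ≤ ent μ (blk 0 n) + ent μ (blk 0 K) + ∑ k, ent μ (V k) := by
  have hVm : ∀ k, Mb (V k) := fun k a => hV k (measurableSet_singleton a)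
  have hVp : Mb (fun y k => V k y) := by
    intro a
    have : ((fun y k => V k y) ⁻¹' {a} : Set (Sq b)) = ⋂ k, V k ⁻¹' {a k} := by
      ext y
      simp only [Set.mem_preimage, Set.mem_singleton_iff, Set.mem_iInter, funext_iff]
    rw [this]
    exact MeasurableSet.iInter fun k => hVm k _
  have h1 : ent μ (blk (-(n : ℤ)) (n + K' + K)) ≤
      ent μ (fun y => ((blk (-(n : ℤ)) n y, blk (K' : ℤ) K y), fun k => V k y)) := by
    refine ent_le_of_det (mb_prod (mb_prod (mb_blk _ _) (mb_blk _ _)) hVp) (mb_blk _ _) ?_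
    intro y y' hy
    rw [Prod.mk.injEq, Prod.mk.injEq] at hy
    have h2 := hdet y y' hy.1.1 hy.1.2 (fun k => congrFun hy.2 k)
    funext i
    rcases lt_or_ge (i : ℕ) n with hi | hi
    · exact congrFun hy.1.1 ⟨i, hi⟩
    · rcases lt_or_ge (i : ℕ) (n + K') with hi' | hi'
      · have h3 := congrFun h2 ⟨i - n, by omega⟩
        have h4 : (0 : ℤ) + ((i - n : ℕ) : ℤ) = -(n : ℤ) + (i : ℕ) := by omega
        simp only [blk] at h3 ⊢
        rwa [h4] at h3
      · have h3 := congrFun hy.1.2 ⟨i - (n + K'), by omega⟩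
        have h4 : (K' : ℤ) + ((i - (n + K') : ℕ) : ℤ) = -(n : ℤ) + (i : ℕ) := by omega
        simp only [blk] at h3 ⊢
        rwa [h4] at h3
  rw [ent_blk h] at h1
  have h2 := ent_prod_le (μ := μ) (mb_prod (mb_blk (b := b) (-(n : ℤ)) n) (mb_blk (K' : ℤ) K)) hVp
  have h3 := ent_prod_le (μ := μ) (mb_blk (b := b) (-(n : ℤ)) n) (mb_blk (K' : ℤ) K)
  rw [ent_blk h, ent_blk h (K' : ℤ)] at h3
  have h4 := ent_pi_le (μ := μ) M m V hVm
  linarith

end Pool.Agent.Helper49.KM
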