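import Pool.Agent.Helper5.KM.Defs

/-! ENT2: a rarely used symbol has small entropy. -/

open MeasureTheory Filter Topology

namespace Pool.Agent.Helper49.KM

open Pool.Agent.Helper5.KM

theorem ent_small (M : ℕ) (δ : ℝ) (hδ : 0 < δ) : ∃ p : ℝ, 0 < p ∧
    ∀ (b : ℕ) (μ : Measure (Sq b)) [IsProbabilityMeasure μ] (V : Sq b → Fin (M + 1)),
      Measurable V → μ.real {y | V y ≠ 0} ≤ p → ent μ V ≤ δ := by
  set η : ℝ := δ / (M + 1) with hη
  have hη0 : 0 < η := by positivity
  obtain ⟨r0, hr0, h0⟩ := Metric.continuousAt_iff.1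
    (Real.continuous_negMulLog.continuousAt (x := (0 : ℝ))) η hη0
  obtain ⟨r1, hr1, h1⟩ := Metric.continuousAt_iff.1
    (Real.continuous_negMulLog.continuousAt (x := (1 : ℝ))) η hη0
  refine ⟨min r0 r1 / 2, by positivity, ?_⟩
  intro b μ _ V hV hp
  have hp0 : min r0 r1 / 2 < r0 := by
    have := min_le_left r0 r1
    have : 0 < min r0 r1 := lt_min hr0 hr1
    linarith
  have hp1 : min r0 r1 / 2 < r1 := by
    have := min_le_right r0 r1
    have : 0 < min r0 r1 := lt_min hr0 hr1
    linarith
  have hterm : ∀ a : Fin (M + 1), Real.negMulLog (μ.real (V ⁻¹' {a})) ≤ η := by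
    intro a
    by_cases ha : a = 0
    · subst ha
      have hc : (V ⁻¹' {0})ᶜ = {y | V y ≠ 0} := by ext y; simp
      have h2 : μ.real (V ⁻¹' {0})ᶜ = 1 - μ.real (V ⁻¹' {0}) :=
        probReal_compl_eq_one_sub (hV (measurableSet_singleton _))
      rw [hc] at h2
      have h3 : dist (μ.real (V ⁻¹' {0})) 1 < r1 := by
        rw [Real.dist_eq]
        have h4 : |μ.real (V ⁻¹' {0}) - 1| = μ.real {y | V y ≠ 0} := by
          rw [h2, abs_sub_comm]
          exact abs_of_nonneg (by rw [← h2]; exact measureReal_nonneg)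
        rw [h4]; linarith
      have h5 := h1 h3
      rw [Real.dist_eq, Real.negMulLog_one, sub_zero] at h5
      exact ((le_abs_self _).trans_lt h5).le
    · have h2 : μ.real (V ⁻¹' {a}) ≤ μ.real {y | V y ≠ 0} := by
        apply measureReal_mono
        · intro y hy
          simp only [Set.mem_preimage, Set.mem_singleton_iff] at hy
          simp only [Set.mem_setOf_eq, hy]
          exact ha
        · exact measure_ne_top _ _
      have h3 : dist (μ.real (V ⁻¹' {a})) 0 < r0 := by
        rw [Real.dist_eq, sub_zero, abs_of_nonneg measureReal_nonneg]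
        linarith
      have h5 := h0 h3
      rw [Real.dist_eq, Real.negMulLog_zero, sub_zero] at h5
      exact ((le_abs_self _).trans_lt h5).le
  unfold ent
  calc ∑ a, Real.negMulLog (μ.real (V ⁻¹' {a})) ≤ ∑ _a : Fin (M + 1), η :=
        Finset.sum_le_sum fun a _ => hterm a
    _ = δ := by
      rw [Finset.sum_const, Finset.card_univ, Fintype.card_fin, nsmul_eq_mul, hη]
      push_cast
      field_simp

end Pool.Agent.Helper49.KM
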