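import Pool.Agent.Helper5.KM.Basic

/-! ENT3a: a K-process is not determined by its past. -/

open MeasureTheory Filter Topology

namespace Pool.Agent.Helper49.KM

open Pool.Agent.Helper5.KM

variable {b : ℕ}

/-- every set of the first past is a.e. a set of the second one -/
def Cov (μ : Measure (Sq b)) (m n : ℤ) : Prop :=
  ∀ s : Set (Sq b), MeasurableSet[past b m] s → ∃ t : Set (Sq b), MeasurableSet[past b n] t ∧
    s =ᵐ[μ] t

theorem cov_one {μ : Measure (Sq b)}
    (h : ∀ d : Fin b, ∃ A : Set (Sq b), MeasurableSet[past b 0] A ∧ A =ᵐ[μ] {y | y 0 = d}) :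
    Cov μ 1 0 := by
  have h1 : Measurable[eventuallyMeasurableSpace (past b 0) (ae μ), past b 1]
      (id : Sq b → Sq b) := by
    refine @measurable_of_coord b (Sq b) (eventuallyMeasurableSpace (past b 0) (ae μ)) 1 id
      fun i hi => ?_
    rcases lt_or_eq_of_le (show i ≤ 0 by omega) with hi0 | rfl
    · have h2 : Measurable[past b 0] (fun y : Sq b => y i) := measurable_coord hi0
      intro s hs
      exact ⟨_, h2 hs, EventuallyEq.refl _ _⟩
    · refine @measurable_to_countable' (Fin b) (Sq b) _ _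
        (eventuallyMeasurableSpace (past b 0) (ae μ)) _ fun d => ?_
      obtain ⟨A, hA, hAe⟩ := h d
      exact ⟨A, hA, hAe.symm⟩
  intro s hs
  exact h1 hs

theorem cov_shift {μ : Measure (Sq b)} (hμ : MeasurePreserving (sh 1) μ μ) {m n : ℤ}
    (h : Cov μ m n) (k : ℤ) : Cov μ (m + k) (n + k) := by
  intro s hs
  rw [← past_comap k m] at hs
  obtain ⟨s', hs', rfl⟩ := hs
  obtain ⟨t', ht', hst⟩ := h s' hs'
  refine ⟨sh k ⁻¹' t', ?_, ?_⟩
  · rw [← past_comap k n]
    exact ⟨t', ht', rfl⟩
  · exact (mp_sh hμ k).quasiMeasurePreserving.preimage_ae_eq hst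

theorem cov_trans {μ : Measure (Sq b)} {l m n : ℤ} (h1 : Cov μ l m) (h2 : Cov μ m n) :
    Cov μ l n := by
  intro s hs
  obtain ⟨t, ht, hst⟩ := h1 s hs
  obtain ⟨t', ht', htt⟩ := h2 t ht
  exact ⟨t', ht', hst.trans htt⟩

/-- (ENT3a) a K-process is not determined by its past -/
theorem not_past {μ : Measure (Sq b)} [IsProbabilityMeasure μ] (h : KProc b μ) :
    ∃ d : Fin b, ∀ A : Set (Sq b), MeasurableSet[past b 0] A → ¬ (A =ᵐ[μ] {y | y 0 = d}) := by
  by_contra hcon
  push Not at hcon
  have hc1 : Cov μ 1 0 := cov_one hcon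
  have hcn : ∀ n : ℕ, Cov μ 1 (-(n : ℤ)) := by
    intro n
    induction n with
    | zero => simpa using hc1
    | succ n ih =>
      refine cov_trans ih ?_
      have := cov_shift h.stat hc1 (-(n : ℤ) - 1)
      rw [show (1 : ℤ) + (-(n : ℤ) - 1) = -(n : ℤ) by ring,
        show (0 : ℤ) + (-(n : ℤ) - 1) = -((n + 1 : ℕ) : ℤ) by push_cast; ring] at this
      exact this
  have hzero : ∀ d : Fin b, μ {y | y 0 = d} = 0 := by
    intro d
    have hmeas : MeasurableSet[past b 1] {y : Sq b | y 0 = d} :=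
      measurable_coord (b := b) (show (0 : ℤ) < 1 by norm_num) (measurableSet_singleton d)
    choose A hA hAe using fun n : ℕ => hcn n _ hmeas
    set B : Set (Sq b) := {y | ∀ m : ℕ, ∃ n ≥ m, y ∈ A n} with hB
    have hBm : ∀ N : ℤ, MeasurableSet[past b N] B := by
      intro N
      obtain ⟨m0, hm0⟩ : ∃ m0 : ℕ, -(m0 : ℤ) ≤ N := ⟨N.natAbs, by omega⟩
      have hBe : B = ⋂ m : ℕ, ⋃ n : ℕ, A (m + m0 + n) := by
        ext y
        simp only [hB, Set.mem_setOf_eq, Set.mem_iInter, Set.mem_iUnion]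
        constructor
        · intro hy m
          obtain ⟨n, hn, hy'⟩ := hy (m + m0)
          exact ⟨n - (m + m0), by rw [Nat.add_sub_cancel' hn]; exact hy'⟩
        · intro hy m
          obtain ⟨n, hn⟩ := hy m
          exact ⟨m + m0 + n, by omega, hn⟩
      rw [hBe]
      refine @MeasurableSet.iInter _ _ (past b N) _ _ fun m =>
        @MeasurableSet.iUnion _ _ (past b N) _ _ fun n => ?_
      exact past_mono (by push_cast; omega) _ (hA _)
    have hBe : B =ᵐ[μ] {y | y 0 = d} := by
      have hall : ∀ᵐ y ∂μ, ∀ n, ({y | y 0 = d} : Set (Sq b)) y = A n y :=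
        ae_all_iff.2 fun n => hAe n
      filter_upwards [hall] with y hy
      apply propext
      constructor
      · intro hyB
        obtain ⟨n, -, hn⟩ := hyB 0
        exact (hy n).mpr hn
      · intro hy0 m
        exact ⟨m, le_refl _, (hy m).mp hy0⟩
    rw [← measure_congr hBe]
    rcases h.tail B hBm with h0 | h0
    · exact h0
    · exfalso
      apply h.nonconst d
      rw [← measure_congr hBe]; exact h0
  have huniv : (Set.univ : Set (Sq b)) = ⋃ d : Fin b, {y | y 0 = d} := by
    ext y; simp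
  have h1 : μ (Set.univ : Set (Sq b)) = 0 := by
    rw [huniv]
    exact measure_iUnion_null hzero
  rw [measure_univ] at h1
  exact one_ne_zero h1

end Pool.Agent.Helper49.KM
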