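import Pool.Agent.Helper5.KM.Basic

/-! ENT3b: positive entropy. -/

open MeasureTheory Filter Topology

namespace Pool.Agent.Helper49.KM

open Pool.Agent.Helper5.KM

variable {b : ℕ}

/-- one more letter: the entropy of a finite family and its sum -/
theorem negMulLog_sum {ι : Type} [Fintype ι] (a : ι → ℝ) (ha : ∀ i, 0 ≤ a i) (d : ι)
    (hs : 0 < ∑ i, a i) :
    a d - a d ^ 2 / (∑ i, a i) ≤ ∑ i, Real.negMulLog (a i) - Real.negMulLog (∑ i, a i) := by
  classical
  set s := ∑ i, a i with hsdef
  have h1 : ∑ i, Real.negMulLog (a i) - Real.negMulLog s =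
      ∑ i, a i * (Real.log s - Real.log (a i)) := by
    have : Real.negMulLog s = -∑ i, a i * Real.log s := by
      rw [← Finset.sum_mul, Real.negMulLog]; ring
    rw [this, sub_neg_eq_add, ← Finset.sum_add_distrib]
    refine Finset.sum_congr rfl fun i _ => ?_
    rw [Real.negMulLog]; ring
  have hle : ∀ i, a i ≤ s := fun i => Finset.single_le_sum (fun j _ => ha j) (Finset.mem_univ i)
  have hterm : ∀ i, 0 ≤ a i * (Real.log s - Real.log (a i)) := by
    intro i
    rcases (ha i).eq_or_lt with h | h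
    · rw [← h]; simp
    · exact mul_nonneg h.le (sub_nonneg.2 (Real.log_le_log h (hle i)))
  have h2 : a d * (Real.log s - Real.log (a d)) ≤ ∑ i, a i * (Real.log s - Real.log (a i)) :=
    Finset.single_le_sum (f := fun i => a i * (Real.log s - Real.log (a i)))
      (fun i _ => hterm i) (Finset.mem_univ d)
  rw [h1]
  refine le_trans ?_ h2
  rcases (ha d).eq_or_lt with h | h
  · rw [← h]; simp
  · have h3 := Real.log_le_sub_one_of_pos (div_pos h hs)
    rw [Real.log_div h.ne' hs.ne'] at h3
    have h4 : a d * (1 - a d / s) ≤ a d * (Real.log s - Real.log (a d)) :=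
      mul_le_mul_of_nonneg_left (by linarith) h.le
    calc a d - a d ^ 2 / s = a d * (1 - a d / s) := by ring
      _ ≤ _ := h4

/-- integral of a function with finitely many values -/
theorem integral_fin {μ : Measure (Sq b)} [IsProbabilityMeasure μ] {α : Type} [Fintype α]
    [MeasurableSpace α] [MeasurableSingletonClass α] (T : Sq b → α) (hT : Measurable T)
    (F : α → ℝ) : ∫ y, F (T y) ∂μ = ∑ a, μ.real (T ⁻¹' {a}) * F a := by
  have h1 : ∫ y, F (T y) ∂μ = ∫ a, F a ∂(μ.map T) := by
    rw [integral_map hT.aemeasurable]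
    exact (measurable_of_finite F).aestronglyMeasurable
  have : IsProbabilityMeasure (μ.map T) := Measure.isProbabilityMeasure_map hT.aemeasurable
  rw [h1, integral_fintype (Integrable.of_finite)]
  refine Finset.sum_congr rfl fun a _ => ?_
  rw [smul_eq_mul, map_measureReal_apply hT (measurableSet_singleton a)]

theorem blk_succ_mem (n : ℕ) (w : Fin n → Fin b) (i : Fin b) (y : Sq b) :
    blk 0 (n + 1) y = Fin.snoc w i ↔ blk 0 n y = w ∧ y n = i := by
  constructor
  · intro h
    constructor
    · funext j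
      have := congrFun h (Fin.castSucc j)
      rw [Fin.snoc_castSucc] at this
      rw [← this]; rfl
    · have := congrFun h (Fin.last n)
      rw [Fin.snoc_last] at this
      rw [← this]
      simp [blk]
  · rintro ⟨rfl, rfl⟩
    funext j
    refine Fin.lastCases ?_ (fun j => ?_) j
    · rw [Fin.snoc_last]; simp [blk]
    · rw [Fin.snoc_castSucc]; rfl

/-- (ENT3b) one step -/
theorem step {μ : Measure (Sq b)} [IsProbabilityMeasure μ] (d : Fin b) (n : ℕ) :
    ∃ r : (Fin n → Fin b) → ℝ, (∀ w, 0 ≤ r w) ∧ (∀ w, r w ≤ 1) ∧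
      ∫ y, ((if y n = d then (1 : ℝ) else 0) - r (blk 0 n y)) ^ 2 ∂μ ≤
        ent μ (blk 0 (n + 1)) - ent μ (blk 0 n) := by
  classical
  set P : (Fin n → Fin b) → ℝ := fun w => μ.real (blk 0 n ⁻¹' {w}) with hP
  set Q : (Fin n → Fin b) → Fin b → ℝ :=
    fun w i => μ.real (blk 0 (n + 1) ⁻¹' {Fin.snoc w i}) with hQ
  have hQ0 : ∀ w i, 0 ≤ Q w i := fun w i => measureReal_nonneg
  have hPQ : ∀ w, ∑ i, Q w i = P w := by
    intro w
    have h1 : (blk 0 n ⁻¹' {w} : Set (Sq b)) = ⋃ i : Fin b, blk 0 (n + 1) ⁻¹' {Fin.snoc w i} := by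
      ext y
      simp only [Set.mem_preimage, Set.mem_singleton_iff, Set.mem_iUnion, blk_succ_mem]
      constructor
      · intro h; exact ⟨y n, h, rfl⟩
      · rintro ⟨i, h, -⟩; exact h
    simp only [hP, hQ]
    rw [h1, measureReal_iUnion_fintype]
    · intro i j hij
      rw [Function.onFun, Set.disjoint_left]
      intro y hy1 hy2
      simp only [Set.mem_preimage, Set.mem_singleton_iff, blk_succ_mem] at hy1 hy2
      exact hij (hy1.2.symm.trans hy2.2)
    · intro i
      exact measurable_blk 0 (n + 1) (measurableSet_singleton _)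
  -- the equivalence of words
  have hsum : ∀ G : (Fin (n + 1) → Fin b) → ℝ, ∑ w', G w' =
      ∑ w : Fin n → Fin b, ∑ i : Fin b, G (Fin.snoc w i) := by
    intro G
    rw [← (Fin.snocEquiv (fun _ : Fin (n + 1) => Fin b)).sum_comp, Fintype.sum_prod_type,
      Finset.sum_comm]
    rfl
  have hent1 : ent μ (blk 0 (n + 1)) = ∑ w, ∑ i, Real.negMulLog (Q w i) := by
    unfold ent
    rw [hsum]
  have hent0 : ent μ (blk 0 n) = ∑ w, Real.negMulLog (∑ i, Q w i) := by
    unfold ent
    refine Finset.sum_congr rfl fun w _ => ?_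
    rw [hPQ]
  refine ⟨fun w => Q w d / P w, fun w => div_nonneg (hQ0 _ _) measureReal_nonneg, fun w => ?_, ?_⟩
  · have h7 : Q w d ≤ P w := by
      rw [← hPQ w]
      exact Finset.single_le_sum (fun j _ => hQ0 w j) (Finset.mem_univ d)
    exact div_le_one_of_le₀ h7 measureReal_nonneg
  · have h1 := integral_fin (μ := μ) (blk 0 (n + 1)) (measurable_blk 0 (n + 1))
      (fun w' => ((if w' (Fin.last n) = d then (1 : ℝ) else 0) -
        Q (fun j => w' (Fin.castSucc j)) d / P (fun j => w' (Fin.castSucc j))) ^ 2)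
    have h2 : (fun y : Sq b => ((if y n = d then (1 : ℝ) else 0) -
        (fun w => Q w d / P w) (blk 0 n y)) ^ 2) = fun y =>
        ((if (blk 0 (n + 1) y) (Fin.last n) = d then (1 : ℝ) else 0) -
        Q (fun j => (blk 0 (n + 1) y) (Fin.castSucc j)) d /
          P (fun j => (blk 0 (n + 1) y) (Fin.castSucc j))) ^ 2 := by
      funext y
      have e1 : (blk 0 (n + 1) y) (Fin.last n) = y n := by simp [blk]
      have e2 : (fun j => (blk 0 (n + 1) y) (Fin.castSucc j)) = blk 0 n y := rfl
      rw [e1, e2]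
    rw [h2, h1, hsum, hent1, hent0, ← Finset.sum_sub_distrib]
    refine Finset.sum_le_sum fun w _ => ?_
    have h3 : ∑ i : Fin b, μ.real (blk 0 (n + 1) ⁻¹' {(Fin.snoc w i : Fin (n + 1) → Fin b)}) *
        ((if (Fin.snoc w i : Fin (n + 1) → Fin b) (Fin.last n) = d then (1 : ℝ) else 0) -
        Q (fun j => (Fin.snoc w i : Fin (n + 1) → Fin b) (Fin.castSucc j)) d /
          P (fun j => (Fin.snoc w i : Fin (n + 1) → Fin b) (Fin.castSucc j))) ^ 2 =
        ∑ i : Fin b, Q w i * ((if i = d then (1 : ℝ) else 0) - Q w d / P w) ^ 2 := by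
      refine Finset.sum_congr rfl fun i _ => ?_
      have e2 : (fun j => (Fin.snoc w i : Fin (n + 1) → Fin b) (Fin.castSucc j)) = w := by
        funext j; rw [Fin.snoc_castSucc]
      rw [e2, Fin.snoc_last]
    rw [h3]
    rcases (Finset.sum_nonneg fun i (_ : i ∈ Finset.univ) => hQ0 w i).eq_or_lt with h0 | h0
    · have hz : ∀ i, Q w i = 0 := fun i =>
        (Finset.sum_eq_zero_iff_of_nonneg fun j _ => hQ0 w j).1 h0.symm i (Finset.mem_univ i)
      simp [hz]
    · refine le_trans (le_of_eq ?_) (negMulLog_sum (Q w) (hQ0 w) d h0)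
      have h4 : ∑ i : Fin b, Q w i * ((if i = d then (1 : ℝ) else 0) - Q w d / P w) ^ 2 =
          Q w d * (1 - 2 * (Q w d / P w)) + (∑ i, Q w i) * (Q w d / P w) ^ 2 := by
        rw [Finset.sum_mul]
        have h5 : ∀ i : Fin b, Q w i * ((if i = d then (1 : ℝ) else 0) - Q w d / P w) ^ 2 =
            (if i = d then Q w i * (1 - 2 * (Q w d / P w)) else 0) +
              Q w i * (Q w d / P w) ^ 2 := by
          intro i
          split_ifs <;> ring
        rw [Finset.sum_congr rfl fun i _ => h5 i, Finset.sum_add_distrib]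
        simp
      rw [h4, ← hPQ w]
      field_simp
      ring

/-- minimality of the conditional expectation -/
theorem condExp_min {μ : Measure (Sq b)} [IsProbabilityMeasure μ] (f q : Sq b → ℝ)
    (hf : Measurable f) (hf0 : ∀ y, 0 ≤ f y) (hf1 : ∀ y, f y ≤ 1)
    (hq : StronglyMeasurable[past b 0] q) (hq0 : ∀ y, 0 ≤ q y) (hq1 : ∀ y, q y ≤ 1) :
    ∫ y, (f y - (μ[f | past b 0]) y) ^ 2 ∂μ ≤ ∫ y, (f y - q y) ^ 2 ∂μ := by
  have hm : past b 0 ≤ MeasurableSpace.pi := past_le 0
  set p := μ[f | past b 0] with hp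
  have hpm : StronglyMeasurable[past b 0] p := stronglyMeasurable_condExp
  have hfi : Integrable f μ := by
    refine Integrable.of_bound hf.aestronglyMeasurable 1 (Eventually.of_forall fun y => ?_)
    rw [Real.norm_eq_abs, abs_of_nonneg (hf0 y)]; exact hf1 y
  have hpb : ∀ᵐ y ∂μ, |p y| ≤ 1 := by
    have := ae_bdd_condExp_of_ae_bdd (m := past b 0) (R := (1 : NNReal)) (μ := μ) (f := f)
      (Eventually.of_forall fun y => by
        rw [abs_of_nonneg (hf0 y)]; simpa using hf1 y)
    simpa using this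
  set r := fun y => p y - q y with hr
  have hrm : StronglyMeasurable[past b 0] r := hpm.sub hq
  have hrb : ∀ᵐ y ∂μ, ‖r y‖ ≤ 2 := by
    filter_upwards [hpb] with y hy
    rw [Real.norm_eq_abs]
    have := abs_le.1 hy
    have h1 := hq0 y
    have h2 := hq1 y
    exact abs_le.2 ⟨by simp only [hr]; linarith, by simp only [hr]; linarith⟩
  have hri : Integrable r μ := Integrable.of_bound (hrm.mono hm).aestronglyMeasurable 2 hrb
  have hpi : Integrable p μ := integrable_condExp
  -- the cross term
  have hrf : Integrable (fun y => r y * f y) μ :=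
    Integrable.bdd_mul hfi (hrm.mono hm).aestronglyMeasurable hrb
  have hrp : Integrable (fun y => r y * p y) μ :=
    Integrable.bdd_mul hpi (hrm.mono hm).aestronglyMeasurable hrb
  have hcross : ∫ y, r y * f y ∂μ = ∫ y, r y * p y ∂μ := by
    have h1 : μ[fun y => r y * f y | past b 0] =ᵐ[μ] fun y => r y * p y :=
      condExp_mul_of_stronglyMeasurable_left hrm hrf hfi
    rw [← integral_condExp hm (f := fun y => r y * f y)]
    exact integral_congr_ae h1
  have hsq : ∀ g : Sq b → ℝ, AEStronglyMeasurable g μ → (∀ᵐ y ∂μ, ‖g y‖ ≤ 2) →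
      Integrable (fun y => g y ^ 2) μ := by
    intro g hg hgb
    refine Integrable.of_bound (hg.pow 2) 4 ?_
    filter_upwards [hgb] with y hy
    rw [norm_pow]
    calc ‖g y‖ ^ 2 ≤ 2 ^ 2 := pow_le_pow_left₀ (norm_nonneg _) hy 2
      _ = 4 := by norm_num
  have i1 : Integrable (fun y => (f y - p y) ^ 2) μ := by
    refine hsq _ (hf.aestronglyMeasurable.sub (hpm.mono hm).aestronglyMeasurable) ?_
    filter_upwards [hpb] with y hy
    rw [Real.norm_eq_abs]
    have := abs_le.1 hy
    have h1 := hf0 y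
    have h2 := hf1 y
    exact abs_le.2 ⟨by linarith, by linarith⟩
  have i2 : Integrable (fun y => r y ^ 2) μ := hsq r (hrm.mono hm).aestronglyMeasurable hrb
  have i3 : Integrable (fun y => 2 * (r y * f y - r y * p y)) μ := (hrf.sub hrp).const_mul 2
  have hexp : (fun y => (f y - q y) ^ 2) = fun y =>
      (f y - p y) ^ 2 + 2 * (r y * f y - r y * p y) + r y ^ 2 := by
    funext y; simp only [hr]; ring
  have i4 : Integrable (fun y => (f y - p y) ^ 2 + 2 * (r y * f y - r y * p y)) μ := i1.add i3
  rw [hexp, integral_add i4 i2, integral_add i1 i3, integral_const_mul,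
    integral_sub hrf hrp, hcross, sub_self, mul_zero, add_zero]
  have : 0 ≤ ∫ y, r y ^ 2 ∂μ := integral_nonneg fun y => sq_nonneg _
  linarith

/-- (ENT3b) -/
theorem ent_pos {μ : Measure (Sq b)} [IsProbabilityMeasure μ] (h : MeasurePreserving (sh 1) μ μ)
    (h2 : ∃ d : Fin b, ∀ A : Set (Sq b), MeasurableSet[past b 0] A →
      ¬ (A =ᵐ[μ] {y | y 0 = d})) : ∃ c : ℝ, 0 < c ∧ ∀ n : ℕ, c * n ≤ ent μ (blk 0 n) := by
  classical
  obtain ⟨d, hd⟩ := h2
  set f : Sq b → ℝ := fun y => if y 0 = d then (1 : ℝ) else 0 with hf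
  have hfm : Measurable f :=
    Measurable.ite (measurableSet_eq_fun (measurable_pi_apply 0) measurable_const)
      measurable_const measurable_const
  have hf0 : ∀ y, 0 ≤ f y := fun y => by simp only [hf]; split_ifs <;> norm_num
  have hf1 : ∀ y, f y ≤ 1 := fun y => by simp only [hf]; split_ifs <;> norm_num
  set p := μ[f | past b 0] with hp
  have hpm : StronglyMeasurable[past b 0] p := stronglyMeasurable_condExp
  have hmin := fun q hq hq0 hq1 => condExp_min (μ := μ) f q hfm hf0 hf1 hq hq0 hq1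
  have hm : past b 0 ≤ MeasurableSpace.pi := past_le 0
  have hpb : ∀ᵐ y ∂μ, |p y| ≤ 1 := by
    have := ae_bdd_condExp_of_ae_bdd (m := past b 0) (R := (1 : NNReal)) (μ := μ) (f := f)
      (Eventually.of_forall fun y => by
        rw [abs_of_nonneg (hf0 y)]; simpa using hf1 y)
    simpa using this
  have i1 : Integrable (fun y => (f y - p y) ^ 2) μ := by
    refine Integrable.of_bound ((hfm.aestronglyMeasurable.sub
      (hpm.mono hm).aestronglyMeasurable).pow 2) 4 ?_
    filter_upwards [hpb] with y hy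
    have h3 := abs_le.1 hy
    have h4 := hf0 y
    have h5 := hf1 y
    have h6 : ‖f y - p y‖ ≤ 2 := by
      rw [Real.norm_eq_abs]; exact abs_le.2 ⟨by linarith, by linarith⟩
    rw [norm_pow]
    calc ‖f y - p y‖ ^ 2 ≤ 2 ^ 2 := pow_le_pow_left₀ (norm_nonneg _) h6 2
      _ = 4 := by norm_num
  set c := ∫ y, (f y - p y) ^ 2 ∂μ with hc
  have hcpos : 0 < c := by
    have h0 : 0 ≤ c := integral_nonneg fun y => sq_nonneg _
    rcases h0.eq_or_lt with h0 | h0
    · exfalso
      have h3 : (fun y => (f y - p y) ^ 2) =ᵐ[μ] 0 :=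
        (integral_eq_zero_iff_of_nonneg (fun y => sq_nonneg _) i1).1 h0.symm
      refine hd (p ⁻¹' {1}) (hpm.measurable (measurableSet_singleton _)) ?_
      filter_upwards [h3] with y hy
      have h4 : f y = p y := by
        have : (f y - p y) ^ 2 = 0 := hy
        have := pow_eq_zero_iff (two_ne_zero) |>.1 this
        linarith
      apply propext
      change p y = 1 ↔ y 0 = d
      rw [← h4]
      simp only [hf]
      split_ifs with h5 <;> simp [h5]
    · exact h0
  refine ⟨c, hcpos, ?_⟩
  have hstep : ∀ n : ℕ, c ≤ ent μ (blk 0 (n + 1)) - ent μ (blk 0 n) := by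
    intro n
    obtain ⟨r, hr0, hr1, hr⟩ := step (μ := μ) d n
    refine le_trans ?_ hr
    have hq : StronglyMeasurable[past b 0] (fun y : Sq b => r (blk (-(n : ℤ)) n y)) := by
      have h3 : Measurable[past b 0] (blk (-(n : ℤ)) n : Sq b → Fin n → Fin b) :=
        measurable_blk_past _ _ _ (by simp)
      exact ((measurable_of_finite r).comp h3).stronglyMeasurable
    refine (hmin _ hq (fun y => hr0 _) (fun y => hr1 _)).trans (le_of_eq ?_)
    have h4 := (mp_sh h (n : ℤ)).integral_comp' (f := shEquiv (b := b) (n : ℤ))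
      (fun y => (f y - r (blk (-(n : ℤ)) n y)) ^ 2)
    rw [← h4]
    refine integral_congr_ae (Eventually.of_forall fun y => ?_)
    have e1 : (shEquiv (b := b) (n : ℤ)) y = sh n y := rfl
    have e2 : blk (-(n : ℤ)) n (sh n y) = blk 0 n y := by rw [blk_sh]; congr 1; ring
    have e3 : (sh (n : ℤ) y) 0 = y n := by simp [sh]
    simp only [e1, e2, hf, e3]
  intro n
  induction n with
  | zero =>
    simp only [Nat.cast_zero, mul_zero]
    unfold ent
    exact Finset.sum_nonneg fun a _ => Real.negMulLog_nonneg measureReal_nonneg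
      measureReal_le_one
  | succ n ih =>
    have := hstep n
    push_cast
    linarith

end Pool.Agent.Helper49.KM
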