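import Mathlib

/-! ENT4: a numerical lemma on subadditive sequences. -/

open Filter Topology

namespace Pool.Agent.Helper49.KM

theorem subadd (H : ℕ → ℝ) (h0 : ∀ n, 0 ≤ H n) (hs : ∀ m n, H (m + n) ≤ H m + H n) (c : ℝ)
    (hc : 0 < c) (hH : ∀ n : ℕ, c * n ≤ H n) : ∃ h : ℝ, c ≤ h ∧
      Tendsto (fun n : ℕ => H n / n) atTop (𝓝 h) ∧
      ∀ (m n0 : ℕ) (δ : ℝ), 0 < δ → ∃ n, n0 ≤ n ∧ m * h - δ ≤ H (n + m) - H n := by
  have hsub : Subadditive H := hs
  have hbdd : BddBelow (Set.range fun n : ℕ => H n / n) := by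
    refine ⟨0, ?_⟩
    rintro _ ⟨n, rfl⟩
    exact div_nonneg (h0 n) (Nat.cast_nonneg n)
  have hlim := hsub.tendsto_lim hbdd
  refine ⟨hsub.lim, ?_, hlim, ?_⟩
  · refine ge_of_tendsto hlim ?_
    filter_upwards [eventually_ge_atTop 1] with n hn
    have hn0 : (0 : ℝ) < n := by exact_mod_cast hn
    rw [le_div_iff₀ hn0]
    exact hH n
  · intro m n0 δ hδ
    by_contra hcon
    push Not at hcon
    have hle : ∀ n : ℕ, hsub.lim * n ≤ H n := by
      intro n
      rcases Nat.eq_zero_or_pos n with rfl | hn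
      · simpa using h0 0
      · have hn0 : (0 : ℝ) < n := by exact_mod_cast hn
        have := hsub.lim_le_div hbdd hn.ne'
        rwa [le_div_iff₀ hn0] at this
    have hj : ∀ j : ℕ, H (n0 + j * m) ≤ H n0 + j * (m * hsub.lim - δ) := by
      intro j
      induction j with
      | zero => simp
      | succ j ih =>
        have h1 := hcon (n0 + j * m) (by omega)
        rw [show n0 + (j + 1) * m = n0 + j * m + m by ring]
        push_cast
        linarith
    obtain ⟨j, hj'⟩ := exists_nat_gt ((H n0 - hsub.lim * n0) / δ)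
    rw [div_lt_iff₀ hδ] at hj'
    have h1 := hj j
    have h2 := hle (n0 + j * m)
    push_cast at h2
    nlinarith

end Pool.Agent.Helper49.KM
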